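import Pool.Agent.Lib.MP_88c759_an.Main

/-!
A counterexample for `n = 3`, `k = 2`, `Ω` the open unit ball and constant boundary data
`φ ≡ 1/4`, with `ψ (x, z, p)` smooth and positive on `closure Ω × ℝ × {|p| < 1}` and `ψ_z > 0`:
there is a smooth spacelike 2-admissible subsolution, but no 2-admissible solution, not even in
`C(closure Ω) ∩ C²(Ω)`.
-/

namespace Pool.Agent.Results.MP_88c759_an.NoSolution

open scoped ContDiff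
open Pool.Agent.Lib.MP_88c759_an

theorem result :
    ∃ (ψ : (Fin 3 → ℝ) → ℝ → (Fin 3 → ℝ) → ℝ) (ub : (Fin 3 → ℝ) → ℝ),
      (∀ x z p, nsq x ≤ 1 → nsq p < 1 →
        ContDiffAt ℝ ∞ (fun q : (Fin 3 → ℝ) × ℝ × (Fin 3 → ℝ) => ψ q.1 q.2.1 q.2.2) (x, z, p) ∧
          0 < ψ x z p ∧ 0 < deriv (fun t => ψ x t p) z) ∧
      ContDiff ℝ ∞ ub ∧
      (∃ c < 1, ∀ x, nsq x ≤ 1 → nsq (grad ub x) ≤ c) ∧
      (∀ x, nsq x ≤ 1 →
        ∃ κ, IsPrincipalCurv ub x κ ∧ InGamma 2 κ ∧ ψ x (ub x) (grad ub x) ≤ sigma 2 κ) ∧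
      (∀ x, nsq x = 1 → ub x = 1 / 4) ∧
      ¬ ∃ u : (Fin 3 → ℝ) → ℝ,
        ContinuousOn u {x | nsq x ≤ 1} ∧ ContDiffOn ℝ 2 u {x | nsq x < 1} ∧
        (∀ x, nsq x < 1 → nsq (grad u x) < 1 ∧
          ∃ κ, IsPrincipalCurv u x κ ∧ InGamma 2 κ ∧ sigma 2 κ = ψ x (u x) (grad u x)) ∧
        (∀ x, nsq x = 1 → u x = 1 / 4) := by
  obtain ⟨K, hK, hsub⟩ := exists_K
  refine ⟨psi K, ub, fun x z p hx hp =>
    ⟨contDiffAt_psi K z hx hp, psi_pos K z hx hp, deriv_psi_pos hK z hx hp⟩, contDiff_ub,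
    ⟨16 / 25, by norm_num, fun x hx => by rw [nsq_grad_ub]; linarith⟩, fun x hx => ?_,
    fun x hx => by rw [ub, hx]; norm_num, ?_⟩
  · obtain ⟨κ, h1, h2, h3⟩ := ub_curv hx
    exact ⟨κ, h1, h2, (hsub x hx).trans h3⟩
  · rintro ⟨u, h1, h2, h3, h4⟩
    exact no_solution hK u h1 h2 h3 h4

end Pool.Agent.Results.MP_88c759_an.NoSolution
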