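import Pool.Agent.Lib.MP_88c759_an.Mink.TMain2
import Pool.Agent.Lib.MP_88c759_an.Both

/-!
The Dirichlet problem for spacelike graphs of prescribed `σ_k` curvature in Minkowski space,
`2 ≤ k ≤ n - 1`, `2 k > n`, under both readings of the set `D` of gradients on which the right
side is smooth and positive: true when `D` contains the closed unit ball, false for the open ball.
-/

namespace Pool.Agent.Results.MP_88c759_an.BothReadings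

open scoped ContDiff
open Set Pool.Agent.Mink.Q

/-- The hypotheses of the problem, with `ψ (x, z, p)` smooth and positive for `p` in `D`. -/
def Hyp {n : ℕ} (k : ℕ) (D Ω : Set (Rn n)) (ψ : Rn n × ℝ × Rn n → ℝ) (φ ub : Rn n → ℝ) : Prop :=
  2 ≤ k ∧ k ≤ n - 1 ∧ n < 2 * k ∧ IsSmoothDomain Ω ∧ Convex ℝ Ω ∧
    (∀ x₀ ∈ frontier Ω, ∃ κ, IsBdryCurv Ω x₀ κ ∧ InGamma (k - 1) κ) ∧
    ContDiffOn ℝ ∞ ψ (closure Ω ×ˢ univ ×ˢ D) ∧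
    (∀ x ∈ closure Ω, ∀ z, ∀ p ∈ D, 0 < ψ (x, z, p) ∧ 0 ≤ deriv (fun s => ψ (x, s, p)) z) ∧
    ContDiffOn ℝ 4 φ (closure Ω) ∧ Spacelike Ω φ ∧ IsSub k Ω ψ φ ub

theorem result :
    (∀ (n k : ℕ) (D Ω : Set (Rn n)) (ψ : Rn n × ℝ × Rn n → ℝ) (φ ub : Rn n → ℝ),
      Metric.closedBall 0 1 ⊆ D → Hyp k D Ω ψ φ ub →
      ∃ u : Rn n → ℝ, IsSol k Ω ψ φ u ∧
        (∀ x ∈ closure Ω, ∃ κ, IsCurv Ω u x κ ∧ InGamma k κ) ∧
        (∀ α : ℝ, 0 < α → α < 1 → HolderC3 Ω α u) ∧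
        ∀ v, IsSol k Ω ψ φ v → EqOn v u (closure Ω)) ∧
    ∃ (Ω : Set (Rn 3)) (ψ : Rn 3 × ℝ × Rn 3 → ℝ) (φ ub : Rn 3 → ℝ),
      Hyp 2 (Metric.ball 0 1) Ω ψ φ ub ∧
      (∀ x ∈ closure Ω, ∃ κ, IsCurv Ω ub x κ ∧ InGamma 2 κ) ∧
      ¬ ∃ u : Rn 3 → ℝ, IsSol 2 Ω ψ φ u := by
  constructor
  · rintro n k D Ω ψ φ ub hD ⟨h1, h2, h3, h4, h5, h6, h7, h8, h9, h10, h11⟩
    exact Pool.Agent.Mink.T.main2 h1 h2 h3 h4 h5 h6
      (h7.mono (prod_mono Subset.rfl (prod_mono Subset.rfl hD)))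
      (fun x hx z p hp => h8 x hx z p (hD (mem_closedBall_zero_iff.2 hp))) h9 h10 h11
  · obtain ⟨ψ, ub, h1, h2, h3, h4, h5, -, h6, h7⟩ := Pool.Agent.Lib.MP_88c759_an.Both.counter
    exact ⟨Metric.ball 0 1, ψ, fun _ => 1 / 4, ub, ⟨le_rfl, le_rfl, by norm_num,
      Pool.Agent.Lib.MP_88c759_an.Both.smooth_ball, convex_ball _ _, h1, h2, h3, contDiffOn_const,
      h4, h5⟩, h6, h7⟩

end Pool.Agent.Results.MP_88c759_an.BothReadings
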