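import Pool.Agent.Lib.MP_88c759_an.Half.H3

/-!
The Dirichlet problem for spacelike `k`-admissible graphs of prescribed `σ_k` curvature in
Minkowski space, `2 ≤ k ≤ n - 1`, `2 k ≥ n`: existence, uniqueness and `C^{3,α}` regularity on
every convex `(k-1)`-admissible bounded domain with smooth boundary, given a subsolution.
-/

namespace Pool.Agent.Results.MP_88c759_an.Existence

open scoped ContDiff
open Set Pool.Agent.Mink.Q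

theorem result (n k : ℕ) (hk : 2 ≤ k) (hkn : k ≤ n - 1) (h2k : n ≤ 2 * k)
    (Ω : Set (Rn n)) (hΩ : IsSmoothDomain Ω) (hconv : Convex ℝ Ω)
    (hadm : ∀ x₀ ∈ frontier Ω, ∃ κ, IsBdryCurv Ω x₀ κ ∧ InGamma (k - 1) κ)
    (ψ : Rn n × ℝ × Rn n → ℝ)
    (hψ : ContDiffOn ℝ ∞ ψ (closure Ω ×ˢ univ ×ˢ Metric.closedBall 0 1))
    (hpos : ∀ x ∈ closure Ω, ∀ z p, ‖p‖ ≤ 1 →
      0 < ψ (x, z, p) ∧ 0 ≤ deriv (fun s => ψ (x, s, p)) z)
    (φ : Rn n → ℝ) (hφ : ContDiffOn ℝ 4 φ (closure Ω)) (hφs : Spacelike Ω φ)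
    (ub : Rn n → ℝ) (hub : IsSub k Ω ψ φ ub) :
    ∃ u : Rn n → ℝ, IsSol k Ω ψ φ u ∧
      (∀ x ∈ closure Ω, ∃ κ, IsCurv Ω u x κ ∧ InGamma k κ) ∧
      (∀ α : ℝ, 0 < α → α < 1 → HolderC3 Ω α u) ∧
      ∀ v, IsSol k Ω ψ φ v → EqOn v u (closure Ω) :=
  Pool.Agent.Mink.T.main2H hk hkn (Or.inl h2k) hΩ hconv hadm hψ hpos hφ hφs hub

end Pool.Agent.Results.MP_88c759_an.Existence
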